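import Mathlib
import Pool.Agent.R177.SpecCheck

/-!
# MP_c2491a_co: a spectral polytope with trivial symmetry group
-/

set_option autoImplicit false

namespace Pool.Agent.Results.MP_c2491a_co.TrivialSymmetry

open Set Pool.Agent.R177 Pool.Agent.R177.Spec

/-- The edge graph of the polytope `conv {p 1, …, p n}` in `ℝ^d` with vertices `p 1, …, p n`:
`i` and `j` are adjacent when they are different and the segment joining `p i` to `p j` is a face
(an exposed subset) of the polytope. -/
def edgeGraph {n d : ℕ} (p : Fin n → Fin d → ℝ) : SimpleGraph (Fin n) where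
  Adj i j := i ≠ j ∧ IsExposed ℝ (convexHull ℝ (range p)) (segment ℝ (p i) (p j))
  symm := ⟨fun i j h => ⟨h.1.symm, by rw [segment_symm]; exact h.2⟩⟩
  loopless := ⟨fun _ h => h.1 rfl⟩

open Classical in
/-- `p 1, …, p n` are the (distinct) vertices of a spectral polytope in `ℝ^d`: they are exactly the
extreme points of their convex hull, and for some `θ` the `d` columns of the matrix with rows
`p 1, …, p n` form a basis of the eigenspace for `θ` of the adjacency matrix of the edge graph of
the polytope. -/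
def IsSpectral {n d : ℕ} (p : Fin n → Fin d → ℝ) : Prop :=
  Function.Injective p ∧ range p = (convexHull ℝ (range p)).extremePoints ℝ ∧
  ∃ θ : ℝ, LinearIndependent ℝ (fun (k : Fin d) (i : Fin n) => p i k) ∧
    Submodule.span ℝ (range fun (k : Fin d) (i : Fin n) => p i k) =
      Module.End.eigenspace (Matrix.toLin' ((edgeGraph p).adjMatrix ℝ)) θ

/-- The vertices of the example. -/
def pt (i : Fin 27) (k : Fin 9) : ℝ := phi i k

/-- The functional `x ↦ - ∑ c r x r`. -/
noncomputable def lf (c : Fin 9 → ℤ) : (Fin 9 → ℝ) →L[ℝ] ℝ :=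
  LinearMap.toContinuousLinearMap
    (∑ r : Fin 9, (-(c r : ℝ)) • (LinearMap.proj r : (Fin 9 → ℝ) →ₗ[ℝ] ℝ))

theorem lf_apply (c : Fin 9 → ℤ) (i : Fin 27) :
    lf c (pt i) = ((-∑ r : Fin 9, phi i r * c r : ℤ) : ℝ) := by
  simp only [lf, LinearMap.coe_toContinuousLinearMap', LinearMap.sum_apply, LinearMap.smul_apply,
    LinearMap.proj_apply, pt, smul_eq_mul]
  push_cast
  rw [← Finset.sum_neg_distrib]
  apply Finset.sum_congr rfl
  intro r _
  ring

theorem cert_lt (i j : Fin 27) (h : adjB i j = true) (hlt : (i : ℕ) < j) :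
    ∃ (l : (Fin 9 → ℝ) →L[ℝ] ℝ) (b : ℝ), l (pt i) + b = 0 ∧ l (pt j) + b = 0 ∧
      ∀ w, w ≠ i → w ≠ j → 0 < l (pt w) + b := by
  obtain ⟨c, hc, hc2⟩ := List.any_eq_true.1 (certs_cover i j h hlt)
  simp only [Bool.and_eq_true, beq_iff_eq] at hc2
  have h1 := List.all_eq_true.1 certs_ok c hc
  unfold checkCert at h1
  rw [List.all_eq_true] at h1
  have h2 : ∀ k : Fin 27, if (k : ℕ) = dig 1024 c 0 ∨ (k : ℕ) = dig 1024 c 1 then val c k = 0
      else 0 < val c k := by
    intro k
    have := h1 k (List.mem_finRange k)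
    split_ifs at this ⊢ with h3 <;> simpa using this
  refine ⟨lf (fun r => (dig 1024 c (3 + r) : ℤ) - 512), (dig 1024 c 2 : ℕ), ?_, ?_, ?_⟩
  · have := h2 i
    rw [if_pos (Or.inl hc2.1.symm)] at this
    rw [lf_apply]
    have h4 : ((val c i : ℤ) : ℝ) = 0 := by rw [this]; simp
    unfold val at h4
    push_cast at h4 ⊢
    linarith
  · have := h2 j
    rw [if_pos (Or.inr hc2.2.symm)] at this
    rw [lf_apply]
    have h4 : ((val c j : ℤ) : ℝ) = 0 := by rw [this]; simp
    unfold val at h4
    push_cast at h4 ⊢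
    linarith
  · intro w hwi hwj
    have := h2 w
    rw [if_neg (by
      rintro (h5 | h5)
      · exact hwi (Fin.ext (h5.trans hc2.1))
      · exact hwj (Fin.ext (h5.trans hc2.2)))] at this
    rw [lf_apply]
    have h4 : (0 : ℝ) < ((val c w : ℤ) : ℝ) := by exact_mod_cast this
    unfold val at h4
    push_cast at h4 ⊢
    linarith

theorem adjB_ne {i j : Fin 27} (h : adjB i j = true) : i ≠ j := by
  unfold adjB at h
  simp only [Bool.and_eq_true, bne_iff_ne] at h
  exact h.1

theorem cert (i j : Fin 27) (h : adjB i j = true) :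
    ∃ (l : (Fin 9 → ℝ) →L[ℝ] ℝ) (b : ℝ), l (pt i) + b = 0 ∧ l (pt j) + b = 0 ∧
      ∀ w, w ≠ i → w ≠ j → 0 < l (pt w) + b := by
  rcases lt_trichotomy (i : ℕ) j with h1 | h1 | h1
  · exact cert_lt i j h h1
  · exact absurd (Fin.ext h1) (adjB_ne h)
  · obtain ⟨l, b, h2, h3, h4⟩ := cert_lt j i (by rw [adjB_symm]; exact h) h1
    exact ⟨l, b, h3, h2, fun w hw1 hw2 => h4 w hw2 hw1⟩

theorem cert_vertex (i : Fin 27) :
    ∃ (l : (Fin 9 → ℝ) →L[ℝ] ℝ) (b : ℝ), l (pt i) + b = 0 ∧ ∀ w, w ≠ i → 0 < l (pt w) + b := by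
  obtain ⟨j, j', hjj, hj, hj'⟩ := two_nbrs i
  obtain ⟨l, b, h1, h2, h3⟩ := cert i j hj
  obtain ⟨l', b', h1', h2', h3'⟩ := cert i j' hj'
  refine ⟨l + l', b + b', ?_, fun w hw => ?_⟩
  · rw [_root_.add_apply]
    linarith
  · rw [_root_.add_apply]
    have hn : 0 ≤ l (pt w) + b := by
      by_cases hwj : w = j
      · rw [hwj, h2]
      · exact (h3 w hw hwj).le
    have hn' : 0 ≤ l' (pt w) + b' := by
      by_cases hwj : w = j'
      · rw [hwj, h2']
      · exact (h3' w hw hwj).le
    by_cases hwj : w = j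
    · have := h3' w hw (by rw [hwj]; exact hjj)
      linarith
    · have := h3 w hw hwj
      linarith

theorem pt_inj : Function.Injective pt := by
  intro i j h
  by_contra hne
  obtain ⟨l, b, h1, h2⟩ := cert_vertex i
  have := h2 j (Ne.symm hne)
  rw [← h] at this
  linarith

theorem pt_ext : range pt = (convexHull ℝ (range pt)).extremePoints ℝ :=
  Poly.extremePoints_eq pt cert_vertex

theorem inter_of {i j : Fin 27} (hij : i ≠ j) (h : ¬ adjB i j = true) : inter i j = true := by
  unfold adjB at h
  simp only [Bool.and_eq_true, bne_iff_ne, Bool.not_eq_true', not_and, Bool.not_eq_false] at h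
  exact h hij

theorem inter_symm (i j : Fin 27) : inter i j = inter j i := by
  unfold inter
  have h1 : (i != j) = (j != i) := bne_comm
  have h2 : (ea i == ea j) = (ea j == ea i) := BEq.comm
  have h3 : (ea i == eb j) = (eb j == ea i) := BEq.comm
  have h4 : (eb i == ea j) = (ea j == eb i) := BEq.comm
  have h5 : (eb i == eb j) = (eb j == eb i) := BEq.comm
  rw [h1, h2, h3, h4, h5]
  cases (j != i) <;> cases (ea j == ea i) <;> cases (eb j == ea i) <;> cases (ea j == eb i) <;>
    cases (eb j == eb i) <;> rfl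

theorem not_edge {i j : Fin 27} (hij : i ≠ j) (h : inter i j = true) :
    ¬ IsExposed ℝ (convexHull ℝ (range pt)) (segment ℝ (pt i) (pt j)) := by
  have key : ∀ i j : Fin 27, inter i j = true → (i : ℕ) < j →
      ¬ IsExposed ℝ (convexHull ℝ (range pt)) (segment ℝ (pt i) (pt j)) := by
    intro i j h hlt
    obtain ⟨u, v, h1, h2, h3⟩ := rel_cover i j h hlt
    refine Poly.not_exposed pt pt_inj pt_ext i j u v h1 h2 ?_
    funext r
    simp only [Pi.add_apply, pt]
    exact_mod_cast h3 r
  rcases lt_trichotomy (i : ℕ) j with h1 | h1 | h1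
  · exact key i j h h1
  · exact absurd (Fin.ext h1) hij
  · rw [segment_symm]
    exact key j i (by rw [inter_symm]; exact h) h1

theorem adj_iff (i j : Fin 27) : (edgeGraph pt).Adj i j ↔ adjB i j = true := by
  constructor
  · rintro ⟨h1, h2⟩
    by_contra h3
    exact not_edge h1 (inter_of h1 h3) h2
  · intro h
    refine ⟨adjB_ne h, ?_⟩
    obtain ⟨l, b, h1, h2, h3⟩ := cert i j h
    exact Poly.exposed_segment pt i j l b h1 h2 h3

open Classical in
theorem mul_apply' (y : Fin 27 → ℝ) (i : Fin 27) :
    Matrix.toLin' ((edgeGraph pt).adjMatrix ℝ) y i = ∑ j, (if adjB i j = true then y j else 0) := by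
  rw [Matrix.toLin'_apply, Matrix.mulVec, dotProduct]
  apply Finset.sum_congr rfl
  intro j _
  rw [SimpleGraph.adjMatrix_apply]
  by_cases h : adjB i j = true
  · rw [if_pos ((adj_iff i j).2 h), if_pos h, one_mul]
  · rw [if_neg (fun h' => h ((adj_iff i j).1 h')), if_neg h, zero_mul]

theorem lin_indep : LinearIndependent ℝ (fun (k : Fin 9) (i : Fin 27) => pt i k) := by
  rw [Fintype.linearIndependent_iff]
  intro g hg r
  have h1 := congrFun hg (fr r)
  simp only [Finset.sum_apply, Pi.smul_apply, smul_eq_mul, Pi.zero_apply, pt] at h1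
  have h2 : ∀ s : Fin 9, g s * ((phi (fr r) s : ℤ) : ℝ) = if r = s then 2 * g s else 0 := by
    intro s
    rw [fr_ok]
    split_ifs <;> push_cast <;> ring
  rw [Finset.sum_congr rfl (fun s _ => h2 s), Finset.sum_ite_eq] at h1
  simpa using h1

open Classical in
theorem eigen :
    Submodule.span ℝ (range fun (k : Fin 9) (i : Fin 27) => pt i k) =
      Module.End.eigenspace (Matrix.toLin' ((edgeGraph pt).adjMatrix ℝ)) 1 := by
  apply le_antisymm
  · rw [Submodule.span_le]
    rintro _ ⟨k, rfl⟩
    rw [SetLike.mem_coe, Module.End.mem_eigenspace_iff]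
    funext i
    rw [mul_apply', one_smul]
    have := eig_ok i k
    simp only [pt]
    rw [← this]
    push_cast
    apply Finset.sum_congr rfl
    intro j _
    split_ifs <;> simp
  · intro y hy
    rw [Module.End.mem_eigenspace_iff] at hy
    have hy1 : ∀ k : Fin 27, ∑ j, (if adjB k j = true then y j else 0) = y k := by
      intro k
      rw [← mul_apply', hy, one_smul]
    have hy2 : ∀ i : Fin 27, 14 * y i = 7 * ∑ r : Fin 9, (phi i r : ℝ) * y (fr r) := by
      intro i
      have h0 : ∑ k : Fin 27, (cm i k : ℝ) *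
          ((∑ j : Fin 27, (if adjB k j = true then y j else 0)) - y k) = 0 := by
        apply Finset.sum_eq_zero
        intro k _
        rw [hy1, sub_self, mul_zero]
      have h1 : ∀ k : Fin 27, (cm i k : ℝ) *
          ((∑ j : Fin 27, (if adjB k j = true then y j else 0)) - y k) =
          ∑ j : Fin 27, ((cm i k * ((if adjB k j = true then 1 else 0) -
            (if k = j then 1 else 0)) : ℤ) : ℝ) * y j := by
        intro k
        have : y k = ∑ j : Fin 27, (if k = j then y j else 0) := by simp
        rw [this, ← Finset.sum_sub_distrib, Finset.mul_sum]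
        apply Finset.sum_congr rfl
        intro j _
        push_cast
        split_ifs <;> ring
      rw [Finset.sum_congr rfl (fun k _ => h1 k), Finset.sum_comm] at h0
      have h2 : ∀ j : Fin 27, ∑ k : Fin 27, ((cm i k * ((if adjB k j = true then 1 else 0) -
            (if k = j then 1 else 0)) : ℤ) : ℝ) * y j =
          (((if i = j then 14 else 0) - 7 * ∑ r : Fin 9, phi i r * (if j = fr r then 1 else 0) : ℤ)
            : ℝ) * y j := by
        intro j
        rw [← Finset.sum_mul, ← cm_ok i j]
        push_cast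
        rfl
      rw [Finset.sum_congr rfl (fun j _ => h2 j)] at h0
      have h3 : ∑ j : Fin 27, (((if i = j then 14 else 0) - 7 * ∑ r : Fin 9,
          phi i r * (if j = fr r then 1 else 0) : ℤ) : ℝ) * y j =
          14 * y i - 7 * ∑ r : Fin 9, (phi i r : ℝ) * y (fr r) := by
        push_cast
        have h4 : ∀ j : Fin 27, ((if i = j then (14 : ℝ) else 0) - 7 * ∑ r : Fin 9,
            (phi i r : ℝ) * (if j = fr r then (1 : ℝ) else 0)) * y j =
            (if i = j then 14 * y j else 0) -
              7 * ∑ r : Fin 9, (if j = fr r then (phi i r : ℝ) * y j else 0) := by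
          intro j
          rw [sub_mul, mul_assoc 7, Finset.sum_mul]
          congr 1
          · split_ifs <;> ring
          · congr 1
            apply Finset.sum_congr rfl
            intro r _
            split_ifs <;> ring
        rw [Finset.sum_congr rfl (fun j _ => h4 j), Finset.sum_sub_distrib, ← Finset.mul_sum,
          Finset.sum_comm]
        simp
      rw [h3] at h0
      linarith
    have hy3 : y = ∑ r : Fin 9, (y (fr r) / 2) • (fun i : Fin 27 => pt i r) := by
      funext i
      rw [Finset.sum_apply]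
      simp only [Pi.smul_apply, smul_eq_mul, pt]
      have := hy2 i
      have h5 : ∑ r : Fin 9, y (fr r) / 2 * (phi i r : ℝ) =
          (∑ r : Fin 9, (phi i r : ℝ) * y (fr r)) / 2 := by
        rw [Finset.sum_div]
        apply Finset.sum_congr rfl
        intro r _
        ring
      rw [h5]
      linarith
    rw [hy3]
    apply Submodule.sum_mem
    intro r _
    exact Submodule.smul_mem _ _ (Submodule.subset_span ⟨r, rfl⟩)

theorem spectral : IsSpectral pt := ⟨pt_inj, pt_ext, 1, lin_indep, eigen⟩

/-- The vertices span `ℝ^9`. -/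
theorem span_top : Submodule.span ℝ (range pt) = ⊤ := by
  rw [eq_top_iff]
  intro x _
  have : x = ∑ r : Fin 9, (x r / 2) • pt (fr r) := by
    funext k
    rw [Finset.sum_apply]
    simp only [Pi.smul_apply, smul_eq_mul, pt]
    have h2 : ∀ s : Fin 9, x s / 2 * ((phi (fr s) k : ℤ) : ℝ) = if s = k then x s else 0 := by
      intro s
      rw [fr_ok]
      split_ifs <;> push_cast <;> ring
    rw [Finset.sum_congr rfl (fun s _ => h2 s)]
    simp
  rw [this]
  apply Submodule.sum_mem
  intro r _
  exact Submodule.smul_mem _ _ (Submodule.subset_span ⟨_, rfl⟩)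

theorem affine_top : affineSpan ℝ (range pt) = ⊤ := by
  have h0 : (0 : Fin 9 → ℝ) ∈ affineSpan ℝ (range pt) := by
    have h1 : (0 : Fin 9 → ℝ) ∈ convexHull ℝ (range pt) := by
      have h2 : (0 : Fin 9 → ℝ) = ∑ i : Fin 27, (1 / 27 : ℝ) • pt i := by
        funext k
        rw [Finset.sum_apply]
        simp only [Pi.smul_apply, smul_eq_mul, pt, Pi.zero_apply]
        rw [← Finset.mul_sum]
        have := sum_zero k
        have h3 : (∑ i : Fin 27, (phi i k : ℝ)) = 0 := by exact_mod_cast this
        rw [h3, mul_zero]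
      rw [h2]
      apply (convex_convexHull ℝ (range pt)).sum_mem
      · intro i _; positivity
      · simp
      · intro i _
        exact subset_convexHull ℝ _ ⟨i, rfl⟩
    exact convexHull_subset_affineSpan _ h1
  rw [AffineSubspace.affineSpan_eq_top_iff_vectorSpan_eq_top_of_nonempty ℝ _ _ (range_nonempty pt)]
  rw [eq_top_iff, ← span_top, Submodule.span_le]
  rintro _ ⟨i, rfl⟩
  have h1 : pt i ∈ affineSpan ℝ (range pt) := subset_affineSpan ℝ _ ⟨i, rfl⟩
  have h2 := AffineSubspace.vsub_mem_direction h1 h0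
  rw [direction_affineSpan] at h2
  simpa using h2

/-- An automorphism of the edge graph preserves the colours. -/
theorem col_inv (σ : Equiv.Perm (Fin 27)) (hσ : ∀ i j, adjB (σ i) (σ j) = adjB i j) (r : ℕ)
    (hr : r ≤ 7) (i : Fin 27) : col r (σ i) = col r i := by
  have hint : ∀ i j, inter (σ i) (σ j) = inter i j := by
    intro i j
    have h1 := hσ i j
    unfold adjB at h1
    have h2 : (σ i != σ j) = (i != j) := by
      by_cases h : i = j
      · subst h; simp
      · have h3 : σ i ≠ σ j := fun h' => h (σ.injective h')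
        rw [bne_iff_ne.2 h3, bne_iff_ne.2 h]
    rw [h2] at h1
    by_cases h : i = j
    · subst h
      simp [inter]
    · have h3 : (i != j) = true := bne_iff_ne.2 h
      rw [h3] at h1
      simp only [Bool.true_and] at h1
      cases h4 : inter (σ i) (σ j) <;> cases h5 : inter i j <;> simp_all
  induction r generalizing i with
  | zero =>
    rw [col_zero, col_zero, ← Equiv.sum_comp σ]
    apply Finset.sum_congr rfl
    intro j _
    rw [← Equiv.sum_comp σ]
    apply Finset.sum_congr rfl
    intro k _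
    rw [hint, hint, hint]
  | succ r ih =>
    have h1 := col_succ ⟨r, by omega⟩
    have h2 : ∑ j : Fin 27, (if inter (σ i) j = true then col r j ^ 2 % 1009 else 0) =
        ∑ j : Fin 27, (if inter i j = true then col r j ^ 2 % 1009 else 0) := by
      rw [← Equiv.sum_comp σ]
      apply Finset.sum_congr rfl
      intro j _
      rw [hint, ih (by omega) j]
    have h3 := h1 (σ i)
    have h4 := h1 i
    rw [h2, ih (by omega) i] at h3
    exact h3.trans h4.symm

theorem no_sym (T : (Fin 9 → ℝ) ≃ₗ[ℝ] (Fin 9 → ℝ))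
    (hT : T '' convexHull ℝ (range pt) = convexHull ℝ (range pt)) :
    T = LinearEquiv.refl ℝ (Fin 9 → ℝ) := by
  have hTe : ∀ i, ∃ j, T (pt i) = pt j := by
    intro i
    have h1 : pt i ∈ (convexHull ℝ (range pt)).extremePoints ℝ := pt_ext ▸ ⟨i, rfl⟩
    have h2 : T (pt i) ∈ (convexHull ℝ (range pt)).extremePoints ℝ := by
      have h3 := image_extremePoints T (convexHull ℝ (range pt))
      rw [hT] at h3
      rw [← h3]
      exact ⟨_, h1, rfl⟩
    rw [← pt_ext] at h2
    obtain ⟨j, hj⟩ := h2
    exact ⟨j, hj.symm⟩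
  choose s hs using hTe
  have sinj : Function.Injective s := by
    intro i j h
    apply pt_inj
    apply T.injective
    rw [hs, hs, h]
  let σ : Equiv.Perm (Fin 27) := Equiv.ofBijective s (Finite.injective_iff_bijective.1 sinj)
  have hexp : ∀ i j, IsExposed ℝ (convexHull ℝ (range pt)) (segment ℝ (pt i) (pt j)) ↔
      IsExposed ℝ (convexHull ℝ (range pt)) (segment ℝ (pt (s i)) (pt (s j))) := by
    intro i j
    have hseg : T '' segment ℝ (pt i) (pt j) = segment ℝ (pt (s i)) (pt (s j)) := by
      have := image_segment ℝ (T : (Fin 9 → ℝ) →ₗ[ℝ] (Fin 9 → ℝ)).toAffineMap (pt i) (pt j)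
      simp only [LinearMap.coe_toAffineMap, LinearEquiv.coe_coe] at this
      rw [this, hs, hs]
    constructor
    · intro h _
      obtain ⟨l, hl⟩ := h ⟨_, left_mem_segment ℝ _ _⟩
      refine ⟨l.comp (LinearMap.toContinuousLinearMap
        (T.symm : (Fin 9 → ℝ) →ₗ[ℝ] (Fin 9 → ℝ))), ?_⟩
      rw [← hseg]
      ext x
      simp only [mem_image, ContinuousLinearMap.comp_apply,
        LinearMap.coe_toContinuousLinearMap', LinearEquiv.coe_coe]
      constructor
      · rintro ⟨y, hy, rfl⟩
        rw [hl] at hy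
        refine ⟨?_, ?_⟩
        · rw [← hT]; exact ⟨y, hy.1, rfl⟩
        · intro z hz
          rw [← hT] at hz
          obtain ⟨z', hz', rfl⟩ := hz
          rw [LinearEquiv.symm_apply_apply, LinearEquiv.symm_apply_apply]
          exact hy.2 z' hz'
      · rintro ⟨h1, h2⟩
        rw [← hT] at h1
        obtain ⟨y, hy, rfl⟩ := h1
        refine ⟨y, ?_, rfl⟩
        rw [hl]
        refine ⟨hy, fun z hz => ?_⟩
        have := h2 (T z) (by rw [← hT]; exact ⟨z, hz, rfl⟩)
        rwa [LinearEquiv.symm_apply_apply, LinearEquiv.symm_apply_apply] at this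
    · intro h _
      obtain ⟨l, hl⟩ := h ⟨_, left_mem_segment ℝ _ _⟩
      refine ⟨l.comp (LinearMap.toContinuousLinearMap
        (T : (Fin 9 → ℝ) →ₗ[ℝ] (Fin 9 → ℝ))), ?_⟩
      ext x
      simp only [ContinuousLinearMap.comp_apply,
        LinearMap.coe_toContinuousLinearMap', LinearEquiv.coe_coe]
      have hmem : x ∈ segment ℝ (pt i) (pt j) ↔ T x ∈ segment ℝ (pt (s i)) (pt (s j)) := by
        rw [← hseg]
        exact (T.injective.mem_set_image).symm
      have hmem2 : ∀ z, z ∈ convexHull ℝ (range pt) ↔ T z ∈ convexHull ℝ (range pt) := by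
        intro z
        conv_rhs => rw [← hT]
        exact (T.injective.mem_set_image).symm
      rw [hmem, hl]
      constructor
      · rintro ⟨h1, h2⟩
        exact ⟨(hmem2 x).2 h1, fun z hz => h2 (T z) ((hmem2 z).1 hz)⟩
      · rintro ⟨h1, h2⟩
        refine ⟨(hmem2 x).1 h1, fun z hz => ?_⟩
        rw [← hT] at hz
        obtain ⟨z', hz', rfl⟩ := hz
        exact h2 z' hz'
  have hadj : ∀ i j, adjB (σ i) (σ j) = adjB i j := by
    intro i j
    have h1 : (edgeGraph pt).Adj (s i) (s j) ↔ (edgeGraph pt).Adj i j := by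
      constructor
      · rintro ⟨h1, h2⟩
        exact ⟨fun h => h1 (by rw [h]), (hexp i j).2 h2⟩
      · rintro ⟨h1, h2⟩
        exact ⟨fun h => h1 (sinj h), (hexp i j).1 h2⟩
    rw [adj_iff, adj_iff] at h1
    have h2 : adjB (s i) (s j) = adjB i j := by
      cases h3 : adjB (s i) (s j) <;> cases h4 : adjB i j <;> simp_all
    exact h2
  have hfix : ∀ i, s i = i := fun i => col_inj _ _ (col_inv σ hadj 7 le_rfl i)
  ext1 x
  rw [LinearEquiv.refl_apply]
  have hx : x ∈ Submodule.span ℝ (range pt) := by rw [span_top]; trivial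
  induction hx using Submodule.span_induction with
  | mem x h =>
    obtain ⟨i, rfl⟩ := h
    rw [hs, hfix]
  | zero => simp
  | add x y _ _ hx hy => rw [map_add, hx, hy]
  | smul a x _ hx => rw [map_smul, hx]

/-- **There is a spectral polytope with trivial symmetry group.** It is a full-dimensional polytope
in `ℝ^9` with 27 vertices: the only invertible linear map `T` with `T(P) = P` is the identity. -/
theorem result : ∃ p : Fin 27 → Fin 9 → ℝ, IsSpectral p ∧ affineSpan ℝ (range p) = ⊤ ∧
    ∀ T : (Fin 9 → ℝ) ≃ₗ[ℝ] (Fin 9 → ℝ),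
      T '' convexHull ℝ (range p) = convexHull ℝ (range p) →
        T = LinearEquiv.refl ℝ (Fin 9 → ℝ) :=
  ⟨pt, spectral, affine_top, no_sym⟩

end Pool.Agent.Results.MP_c2491a_co.TrivialSymmetry
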